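import Pool.Agent.H8.AV3.Stmts4

/-!
# LIF: smooth points lift
-/

set_option autoImplicit false

namespace Pool.Agent.H35.AV3B

open Polynomial Matrix Pool.AVR Pool.AV3

namespace LIF

variable {R : Type} [CommRing R]

theorem tev_line (c : Fin 10 → R) (x w : Fin 3 → R) (t : R) :
    tev c (x + t • w) = tev c x + t * (tder c x w + t * (tder c w x + t * tev c w)) := by
  simp only [tev, tder, Pi.add_apply, Pi.smul_apply, smul_eq_mul]
  ring

theorem tder_sum (c : Fin 10 → R) (x w : Fin 3 → R) :
    tder c x w = w 0 * tder c x (Pi.single 0 1) + w 1 * tder c x (Pi.single 1 1) +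
      w 2 * tder c x (Pi.single 2 1) := by
  have h01 : (Pi.single 0 1 : Fin 3 → R) 1 = 0 := by simp
  have h02 : (Pi.single 0 1 : Fin 3 → R) 2 = 0 := by simp
  have h00 : (Pi.single 0 1 : Fin 3 → R) 0 = 1 := by simp
  have h11 : (Pi.single 1 1 : Fin 3 → R) 1 = 1 := by simp
  have h12 : (Pi.single 1 1 : Fin 3 → R) 2 = 0 := by simp
  have h10 : (Pi.single 1 1 : Fin 3 → R) 0 = 0 := by simp
  have h21 : (Pi.single 2 1 : Fin 3 → R) 1 = 0 := by simp
  have h22 : (Pi.single 2 1 : Fin 3 → R) 2 = 1 := by simp
  have h20 : (Pi.single 2 1 : Fin 3 → R) 0 = 0 := by simp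
  simp only [tder, h00, h01, h02, h10, h11, h12, h20, h21, h22]
  ring

theorem map_tder {S : Type} [CommRing S] (φ : R →+* S) (c : Fin 10 → R) (x w : Fin 3 → R) :
    φ (tder c x w) = tder (fun i => φ (c i)) (fun i => φ (x i)) (fun i => φ (w i)) := by
  simp only [tder, map_add, map_mul, map_pow, map_ofNat]

theorem map_tev {S : Type} [CommRing S] (φ : R →+* S) (c : Fin 10 → R) (x : Fin 3 → R) :
    φ (tev c x) = tev (fun i => φ (c i)) (fun i => φ (x i)) := by
  simp only [tev, map_add, map_mul, map_pow]

end LIF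

theorem lif_thm (hREG : Pool.AV3.REGStmt) : Pool.AV3.LIFStmt := by
  intro R k _ _ φ τ hR c v h0 hw
  obtain ⟨hloc, hkfin, hU, hfib, -⟩ := hREG R k φ τ hR
  haveI := hR.fin
  obtain ⟨w, hw⟩ := hw
  -- a unit partial derivative
  obtain ⟨i, hi⟩ : ∃ i : Fin 3, tder (fun i => φ (c i)) v (Pi.single i 1) ≠ 0 := by
    by_contra hcon
    push Not at hcon
    apply hw
    rw [LIF.tder_sum, hcon 0, hcon 1, hcon 2]
    ring
  set e : Fin 3 → R := Pi.single i 1 with he
  have hei : e i = 1 := by simp [he]
  have hφe : (fun j => φ (e j)) = (Pi.single i 1 : Fin 3 → k) := by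
    funext j
    by_cases hj : j = i
    · subst hj; simp [he]
    · simp [he, hj]
  -- the key unit
  have key : ∀ (x : Fin 3 → R) (t : R), (∀ j, φ (x j) = v j) → φ t = 0 →
      IsUnit (tder c x e + t * (tder c e x + t * tev c e)) := by
    intro x t hx ht
    rw [hU]
    rw [map_add, map_mul, ht, zero_mul, add_zero, LIF.map_tder, hφe]
    have : (fun i => φ (x i)) = v := funext hx
    rw [this]
    exact hi
  let I : Set R := {t : R | φ t = 0}
  let B : Set (Fin 3 → R) := {x | ∀ j, φ (x j) = v j}
  let S : Set (Fin 3 → R) := {x | (∀ j, φ (x j) = v j) ∧ tev c x = 0}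
  have hB3 : Nat.card B = Nat.card I ^ 3 := by
    have hne : 0 < Nat.card k := Nat.card_pos
    have hI : ∀ y : k, Nat.card {x : R // φ x = y} = Nat.card I := by
      intro y
      have h1 := hfib y
      have h2 := hfib 0
      rw [← h2] at h1
      exact Nat.eq_of_mul_eq_mul_right hne h1
    have e1 : B ≃ (∀ j : Fin 3, {x : R // φ x = v j}) :=
      { toFun := fun x j => ⟨x.1 j, x.2 j⟩
        invFun := fun x => ⟨fun j => (x j).1, fun j => (x j).2⟩
        left_inv := fun x => rfl
        right_inv := fun x => rfl }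
    rw [Nat.card_congr e1, Nat.card_pi]
    simp [hI]
  have hBSI : Nat.card B = Nat.card S * Nat.card I := by
    rw [← Nat.card_prod]
    symm
    apply Nat.card_congr
    refine Equiv.ofBijective (fun p : S × I => (⟨p.1.1 + p.2.1 • e, ?_⟩ : B)) ⟨?_, ?_⟩
    · intro j
      have h1 := p.1.2.1 j
      have h2 : φ p.2.1 = 0 := p.2.2
      simp [h1, h2]
    · rintro ⟨⟨s, hs, hs0⟩, ⟨t, ht⟩⟩ ⟨⟨s', hs', hs0'⟩, ⟨t', ht'⟩⟩ h
      have ht : φ t = 0 := ht
      have ht' : φ t' = 0 := ht'
      have h1 : s + t • e = s' + t' • e := congrArg Subtype.val h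
      have h2 : s' = s + (t - t') • e := by
        rw [sub_smul, ← add_sub_assoc, h1]
        simp
      have h3 := LIF.tev_line c s e (t - t')
      rw [← h2, hs0', hs0, zero_add] at h3
      have h4 := key s (t - t') hs (by rw [map_sub, ht, ht', sub_zero])
      have h5 : t - t' = 0 := by
        obtain ⟨u, hu⟩ := h4
        rw [← hu] at h3
        have := congrArg (fun z => z * (↑(u⁻¹) : R)) h3
        simpa using this.symm
      have h6 : t = t' := sub_eq_zero.mp h5
      subst h6
      have h7 : s = s' := by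
        rw [h2]; simp
      subst h7
      rfl
    · rintro ⟨b, hb⟩
      -- the map `t ↦ tev c (b + t e)` on the ideal
      have hmap : ∀ t : I, φ (tev c (b + t.1 • e)) = 0 := by
        intro t
        have ht : φ t.1 = 0 := t.2
        rw [LIF.map_tev]
        have : (fun j => φ ((b + t.1 • e) j)) = v := by
          funext j
          simp [ht, hb j]
        rw [this, h0]
      let f : I → I := fun t => ⟨tev c (b + t.1 • e), hmap t⟩
      have hinj : Function.Injective f := by
        rintro ⟨t, ht⟩ ⟨t', ht'⟩ h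
        have ht : φ t = 0 := ht
        have ht' : φ t' = 0 := ht'
        have h1 : tev c (b + t • e) = tev c (b + t' • e) := congrArg Subtype.val h
        have h2 : b + t • e = (b + t' • e) + (t - t') • e := by
          rw [sub_smul]; abel
        have h3 := LIF.tev_line c (b + t' • e) e (t - t')
        rw [← h2, h1] at h3
        have h4 := key (b + t' • e) (t - t') (by intro j; simp [ht', hb j])
          (by rw [map_sub, ht, ht', sub_zero])
        have h5 : t - t' = 0 := by
          obtain ⟨u, hu⟩ := h4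
          rw [← hu] at h3
          have h6 : (t - t') * (u : R) = 0 := by
            linear_combination -h3
          have := congrArg (fun z => z * (↑(u⁻¹) : R)) h6
          simpa using this
        have h6 : t = t' := sub_eq_zero.mp h5
        subst h6
        rfl
      have hsur : Function.Surjective f := Finite.surjective_of_injective hinj
      obtain ⟨⟨t, ht⟩, hft⟩ := hsur ⟨0, by simp [I]⟩
      have ht0 : φ t = 0 := ht
      have hft' : tev c (b + t • e) = 0 := congrArg Subtype.val hft
      refine ⟨⟨⟨b + t • e, ?_, hft'⟩, ⟨-t, ?_⟩⟩, ?_⟩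
      · intro j
        simp [ht0, hb j]
      · show φ (-t) = 0
        rw [map_neg, ht0, neg_zero]
      · apply Subtype.ext
        show b + t • e + (-t) • e = b
        simp
  have hIk : Nat.card I * Nat.card k = Nat.card R := hfib 0
  have hIpos : 0 < Nat.card I := by
    haveI : Nonempty I := ⟨⟨0, by simp [I]⟩⟩
    exact Nat.card_pos
  have hS : Nat.card S = Nat.card I ^ 2 := by
    have h : Nat.card S * Nat.card I = Nat.card I ^ 2 * Nat.card I := by
      rw [← hBSI, hB3]; ring
    exact Nat.eq_of_mul_eq_mul_right hIpos h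
  show Nat.card S * Nat.card k ^ 2 = Nat.card R ^ 2
  rw [hS, ← hIk]
  ring

end Pool.Agent.H35.AV3B
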