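import Pool.Agent.H8.AV3.Stmts4

/-!
# ST1: stabilisers are trivial if the cubic is nice modulo some prime
-/

set_option autoImplicit false

namespace Pool.Agent.H35.AV3B

open Polynomial Matrix Pool.AVR Pool.AV3

namespace ST1

theorem disc_map {R S : Type} [CommRing R] [CommRing S] (φ : R →+* S) (a b c : R) :
    φ (disc a b c) = disc (φ a) (φ b) (φ c) := by
  simp only [disc, map_add, map_sub, map_mul, map_pow, map_ofNat]

theorem mem_IP {F : Type} [Field F] {P : F[X]} (hP : Irreducible P) (p : F[X]) :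
    algebraMap F[X] (RatFunc F) p ∈ AVS.IP P := by
  show ¬ P ∣ (algebraMap F[X] (RatFunc F) p).denom
  rw [RatFunc.denom_algebraMap]
  intro h
  exact hP.not_isUnit (isUnit_of_dvd_one h)

theorem infinite_ratFunc (F : Type) [Field F] : Infinite (RatFunc F) :=
  Infinite.of_injective (algebraMap F[X] (RatFunc F)) (IsFractionRing.injective F[X] (RatFunc F))

end ST1

theorem st1_thm (hSTL : Pool.AV3.STLStmt) (hT3N : Pool.AV3.T3NStmt) (hINF3 : Pool.AV3.INF3Stmt)
    (hSEC : Pool.AV3.SECStmt) (hRIP : Pool.AVS.RIPStmt) : Pool.AV3.ST1Stmt := by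
  classical
  intro F _ _ h2 n f hf P hPm hPi hNice c hc T hT hT2
  obtain ⟨hfE, h3⟩ := hf
  have hdisc : disc f.1 f.2.1 f.2.2 ≠ 0 := hfE.2
  obtain ⟨hSEC1, -, -⟩ := hSEC F h2 f
  obtain ⟨hloc, -⟩ := hSEC1 c hc
  obtain ⟨L, instL, O, ι, hcomp, hcls⟩ := hloc P hPm hPi
  have hinfK := ST1.infinite_ratFunc F
  have hinfL : Infinite L := Infinite.of_injective ι ι.injective
  have hmem : ∀ p : F[X], ι (algebraMap F[X] (RatFunc F) p) ∈ O := fun p =>
    (hcomp.mem _).mpr (ST1.mem_IP hPi p)
  -- the composite map from the polynomials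
  let j : F[X] →+* L := ι.comp (algebraMap F[X] (RatFunc F))
  have hj : Function.Injective j :=
    ι.injective.comp (IsFractionRing.injective F[X] (RatFunc F))
  let A : O := ⟨ι (algebraMap F[X] (RatFunc F) f.1), hmem _⟩
  let B : O := ⟨ι (algebraMap F[X] (RatFunc F) f.2.1), hmem _⟩
  let C' : O := ⟨ι (algebraMap F[X] (RatFunc F) f.2.2), hmem _⟩
  have hdL : disc (j f.1) (j f.2.1) (j f.2.2) ≠ 0 := by
    rw [← ST1.disc_map]
    intro h
    apply hdisc
    apply hj
    rw [h, map_zero]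
  have hdO : disc A B C' ≠ 0 := by
    intro h
    have h1 := ST1.disc_map O.subtype A B C'
    rw [h, map_zero] at h1
    exact hdL h1.symm
  have h3L : (3 : L) ≠ 0 ∨ (k3 ι f).1 ≠ 0 := by
    rcases h3 with h3 | h3
    · left
      intro h
      apply h3
      have h4 : j (Polynomial.C 3) = j 0 := by
        rw [map_ofNat, map_ofNat, map_zero]; exact h
      have h5 := hj h4
      exact Polynomial.C_eq_zero.mp h5
    · right
      intro h
      apply h3
      apply hj
      rw [map_zero]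
      exact h
  have h3O : (3 : L) = 0 ∨ (3 : L)⁻¹ ∈ O := by
    by_cases h3F : (3 : F) = 0
    · left
      have h4 : j (Polynomial.C 3) = j 0 := by rw [h3F, map_zero]
      rw [map_ofNat, map_ofNat, map_zero] at h4
      exact h4
    · right
      have h4 : (3 : L) * j (Polynomial.C (3 : F)⁻¹) = 1 := by
        have h5 : j (Polynomial.C 3) * j (Polynomial.C (3 : F)⁻¹) = 1 := by
          rw [← map_mul, ← map_mul, mul_inv_cancel₀ h3F, map_one, map_one]
        rw [map_ofNat, map_ofNat] at h5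
        exact h5
      have h5 : (3 : L)⁻¹ = j (Polynomial.C (3 : F)⁻¹) := (eq_inv_of_mul_eq_one_right h4).symm
      rw [h5]
      exact hmem _
  obtain ⟨-, -, hON⟩ := hRIP F P hPm hPi L O ι hcomp
  obtain ⟨e, he⟩ := hON 1
  let ψ : O →+* AdjoinRoot (P ^ 1) := e.toRingHom.comp (Ideal.Quotient.mk _)
  have hψ : ∀ p : F[X], ψ ⟨ι (algebraMap F[X] (RatFunc F) p), hmem p⟩ = AdjoinRoot.mk (P ^ 1) p :=
    fun p => he p (hmem p)
  have hnice1 : Nice (ψ A, ψ B, ψ C') := by
    rw [hψ, hψ, hψ]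
    have h6 : Nice (md3 (P ^ 1) f) := by rw [pow_one]; exact hNice
    exact h6
  have hnt : Nontrivial (AdjoinRoot (P ^ 1)) := by
    rw [pow_one]
    haveI : Fact (Irreducible P) := ⟨hPi⟩
    infer_instance
  have hT0 : ∀ Q : PtT (k3 ι f), Q + Q + Q = 0 → Q = 0 :=
    hT3N L O _ hcomp.loc h3O A B C' hdO (AdjoinRoot (P ^ 1)) ψ hnice1
  have hI : Infinite (PtT (k3 ι f)) := hINF3 L O _ hcomp.loc (k3 ι f) hdL
  -- the image of `T`
  have hinjM : Function.Injective (fun g : Matrix (Fin 3) (Fin 3) (RatFunc F) => g.map ι) := by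
    intro g g' h
    ext a b
    exact ι.injective (congrFun (congrFun h a) b)
  have hcard : (T.image (fun g : Matrix (Fin 3) (Fin 3) (RatFunc F) => g.map ι)).card = T.card :=
    Finset.card_image_of_injective _ hinjM
  have hle := hSTL L hcomp.loc.two.1 (k3 ι f) hdL h3L hI (fun i => ι (c i)) hcls
    (T.image (fun g : Matrix (Fin 3) (Fin 3) (RatFunc F) => g.map ι)) ?_ ?_
  · rw [hcard] at hle
    refine hle.trans ?_
    have hsub : {Q : PtT (k3 ι f) | Q + Q + Q = 0} ⊆ {0} := fun Q hQ => hT0 Q hQ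
    calc _ ≤ ({0} : Set (PtT (k3 ι f))).ncard := Set.ncard_le_ncard hsub (Set.finite_singleton _)
      _ = 1 := Set.ncard_singleton _
  · intro g hg
    obtain ⟨g0, hg0, rfl⟩ := Finset.mem_image.mp hg
    exact (hT g0 hg0).map ι
  · intro g hg g' hg' hne r hr
    obtain ⟨g0, hg0, rfl⟩ := Finset.mem_image.mp hg
    obtain ⟨g1, hg1, rfl⟩ := Finset.mem_image.mp hg'
    have hne' : g0 ≠ g1 := fun h => hne (by rw [h])
    -- a nonzero entry
    obtain ⟨a, b, hab⟩ : ∃ a b, g0 a b ≠ 0 := by
      by_contra hcon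
      push Not at hcon
      have hz : g0 = 0 := by ext a b; exact hcon a b
      have := (hT g0 hg0).1
      rw [hz, Matrix.det_zero] at this
      exact not_isUnit_zero this
    apply hT2 g0 hg0 g1 hg1 hne' (g1 a b / g0 a b)
    have hr' : ∀ x y, ι (g1 x y) = r * ι (g0 x y) := fun x y => congrFun (congrFun hr x) y
    ext x y
    apply ι.injective
    have hab' : ι (g0 a b) ≠ 0 := by
      intro h
      apply hab
      apply ι.injective
      rw [h, map_zero]
    rw [Matrix.smul_apply, smul_eq_mul, map_mul, map_div₀, hr' x y, hr' a b]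
    field_simp

end Pool.Agent.H35.AV3B
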